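import Pool.Agent.helper47.EIF.Spec

/-!
# eif:WSH  exact shifts along the multiples of a fixed number
-/

set_option autoImplicit false

open Finset

namespace Pool.Agent.EIF

theorem WSH_unit {p : ℕ} [Fact p.Prime] (χ : MulChar (ZMod p) ℂ) {x : ZMod p} (hx : x ≠ 0) : ‖χ x‖ = 1 := by
  have := DirichletCharacter.unit_norm_eq_one (n := p) χ (Units.mk0 x hx)
  simpa using this

theorem WSH_term {p : ℕ} [Fact p.Prime] (χ : MulChar (ZMod p) ℂ) (u : ℕ)
    (hu : (u : ZMod p) ≠ 0) (t : ZMod p) (i v : ℕ) :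
    χ (t + (i : ZMod p)) = χ (u : ZMod p) * c0 χ ((t + ((v * u + i : ℕ) : ZMod p)) / (u : ZMod p)) v := by
  have e1 : t + (i : ZMod p) = (u : ZMod p) *
      ((t + ((v * u + i : ℕ) : ZMod p)) / (u : ZMod p) - (v : ZMod p)) := by
    rw [mul_sub, mul_div_cancel₀ _ hu]
    push_cast
    ring
  rw [e1, map_mul]
  unfold c0
  rfl

/-- Exact shifts. -/
theorem WSH (hMAX : Pool.Agent.PJ.MAX_stmt) : WSH_stmt := by
  intro p _ χ k h n u t hk h1 hp hN
  have hu : (u : ZMod p) ≠ 0 := by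
    intro h0
    rw [ZMod.natCast_eq_zero_iff] at h0
    exact absurd (Nat.le_of_dvd (by omega) h0) (by omega)
  have key : ∀ v ∈ range (2 ^ n), ∑ i ∈ range h, χ (t + (i : ZMod p)) = ∑ m ∈ range (2 * h),
      if v * u ≤ m ∧ m < h + v * u then
        χ (u : ZMod p) * c0 χ ((t + (m : ZMod p)) / (u : ZMod p)) v else 0 := by
    intro v hv
    have hv' : v * u ≤ h := by
      have h2 : v ≤ 2 ^ n := (mem_range.1 hv).le
      exact (Nat.mul_le_mul_right u h2).trans hN
    rw [← sum_filter]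
    have hset : (range (2 * h)).filter (fun m => v * u ≤ m ∧ m < h + v * u) =
        Ico (v * u) (h + v * u) := by
      ext m
      rw [mem_filter, mem_range, mem_Ico]
      constructor
      · exact fun hm => hm.2
      · exact fun hm => ⟨by omega, hm⟩
    rw [hset, sum_Ico_eq_sum_range, Nat.add_sub_cancel]
    exact sum_congr rfl fun i _ => WSH_term χ u hu t i v
  have hsum : ((2 : ℂ) ^ n) * ∑ i ∈ range h, χ (t + (i : ZMod p)) = χ (u : ZMod p) * ∑ m ∈ range (2 * h),
      ∑ v ∈ (range (2 ^ n)).filter (fun v => v * u ≤ m ∧ m < h + v * u),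
        c0 χ ((t + (m : ZMod p)) / (u : ZMod p)) v := by
    have e : ((2 : ℂ) ^ n) * ∑ i ∈ range h, χ (t + (i : ZMod p)) =
        ∑ v ∈ range (2 ^ n), ∑ i ∈ range h, χ (t + (i : ZMod p)) := by
      rw [sum_const, card_range, nsmul_eq_mul]
      push_cast
      rfl
    rw [e, sum_congr rfl key, sum_comm, mul_sum]
    refine sum_congr rfl fun m _ => ?_
    rw [← sum_filter, mul_sum]
  have hnorm : (2 : ℝ) ^ n * Wc χ h t = ‖((2 : ℂ) ^ n) * ∑ i ∈ range h, χ (t + (i : ZMod p))‖ := by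
    unfold Wc
    rw [norm_mul, norm_pow]
    norm_num
  rw [hnorm, hsum, norm_mul, WSH_unit χ hu, one_mul]
  refine (norm_sum_le _ _).trans (sum_le_sum fun m _ => ?_)
  refine (hMAX k n _ hk).2 _ (filter_subset _ _) ?_
  intro x hx w hw v huv hvw
  rw [mem_filter, mem_range] at hx hw ⊢
  have a1 : x * u ≤ v * u := Nat.mul_le_mul_right u huv
  have a2 : v * u ≤ w * u := Nat.mul_le_mul_right u hvw
  exact ⟨by omega, by omega, by omega⟩

end Pool.Agent.EIF
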